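import Pool.Agent.helper36.PP.SpecB

/-!
# Project pp: PH1, conclusion of Phase 1 (adapted from `Pool/Agent/helper52/MP/PH1.lean`)
-/

set_option autoImplicit false

open Complex Metric Set Filter Topology MeasureTheory MPS

noncomputable section

namespace PPS

section
variable {n k : ℕ} [NeZero k] {f : Polynomial ℂ} {b g : ZMod k → ℂ} {ψ : ZMod k → ℂ → ℂ}
  {ra R ε δ : ℝ} {A : ℕ → ℝ} {G : ℕ → ℂ → ℂ} {Q : ℕ}

theorem PH1_restr (h : H1 n k f b g ψ ra R ε δ A G Q) {q : ℕ} (hq : q ≤ Q) :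
    H1 n k f b g ψ ra R ε δ A G q where
  su := h.su
  d0 := h.d0
  d1 := h.d1
  mp := h.mp
  sys :=
    { a0 := h.sys.a0
      mono := fun j hj => h.sys.mono j (by omega)
      g0 := h.sys.g0
      diff := fun j h1 h2 => h.sys.diff j h1 (by omega)
      rel := fun j hj => h.sys.rel j (by omega)
      val := fun j hj => h.sys.val j (by omega)
      disj := fun j h1 h2 => h.sys.disj j h1 (by omega) }
  hQ := by
    have := h.hQ
    omega

theorem PH1_mono (h : H1 n k f b g ψ ra R ε δ A G Q) {i j : ℕ} (hij : i ≤ j) (hj : j ≤ Q) :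
    A i ≤ A j := by
  induction j, hij using Nat.le_induction with
  | base => exact le_refl _
  | succ j hij ih => exact (ih (by omega)).trans (h.sys.mono j (by omega))

theorem PH1_ball {a a' : ℝ} (h : a ≤ a') :
    ball (0 : ℂ) (Real.exp (-a')) ⊆ ball (0 : ℂ) (Real.exp (-a)) :=
  ball_subset_ball (Real.exp_le_exp.2 (by linarith))

theorem PH1_iter (h : H1 n k f b g ψ ra R ε δ A G Q) (m q : ℕ) (hmq : m + q ≤ Q) (u : ℂ)
    (hu : u ∈ ball (0 : ℂ) (Real.exp (-A (m + q)))) :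
    (fun z : ℂ => f.eval z)^[m] (G (m + q) u) = G q u := by
  induction m with
  | zero => rw [zero_add, Function.iterate_zero, id]
  | succ m ih =>
    have e : m + 1 + q = m + q + 1 := by omega
    rw [e] at hu hmq ⊢
    rw [Function.iterate_succ_apply]
    have h1 := (h.sys.rel (m + q) (by omega) u hu).1
    rw [h1]
    exact ih (by omega) (PH1_ball (PH1_mono h (by omega) (by omega)) hu)

theorem PH1_level {a : ℝ} (h0 : A 0 < a) (hk : a < A Q) :
    (∃ q ≤ Q, a = A q) ∨ ∃ q < Q, A q < a ∧ a < A (q + 1) := by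
  classical
  have hex : ∃ q, a ≤ A q := ⟨Q, hk.le⟩
  have hs := Nat.find_spec hex
  have hQ : Nat.find hex ≤ Q := Nat.find_min' hex hk.le
  have hne : Nat.find hex ≠ 0 := by
    intro h
    rw [h] at hs
    linarith
  obtain ⟨q, hq⟩ := Nat.exists_eq_succ_of_ne_zero hne
  have h2 : ¬ a ≤ A q := Nat.find_min hex (by omega)
  rw [hq] at hs hQ
  rcases hs.eq_or_lt with h3 | h3
  · exact Or.inl ⟨_, hQ, h3⟩
  · exact Or.inr ⟨q, by omega, not_le.1 h2, h3⟩

/-- the cutoffs of the level `q` at which the level is disjoint, but has no branch. -/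
def PH1_J (k : ℕ) [NeZero k] (f : Polynomial ℂ) (b : ZMod k → ℂ) (ψ : ℂ → ℂ) (δ : ℝ) (A : ℕ → ℝ)
    (G : ℕ → ℂ → ℂ) (q : ℕ) : Set ℝ :=
  {a | A q < a ∧ a < A (q + 1) ∧
    (1 ≤ q → Disjoint (G q '' ball 0 (Real.exp (-a))) (ψ '' ball 0 (Real.exp (-δ)))) ∧
    ¬ Br f (G q) (ball 0 (Real.exp (-a))) 0 (b (-((q + 1 : ℕ) : ZMod k)))}

/-- a critical value in the image of the level `q` at the cutoff `a`. -/
theorem PH1_crit (hL : LIFT_stmt) (hP : P1A_stmt) (h : H1 n k f b g ψ ra R ε δ A G k) {q : ℕ}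
    (hq : q < k) {a : ℝ} (ha : a ∈ PH1_J k f b (ψ 0) δ A G q) :
    ∃ u ∈ ball (0 : ℂ) (Real.exp (-a)), G q u ∈ CV f := by
  obtain ⟨h1, -, -, h4⟩ := ha
  by_contra hne
  push Not at hne
  refine h4 (hL f _ (G q) 0 _ ?_ isOpen_ball (convex_ball _ _) ?_ hne ?_ ?_)
  · rw [h.su.hdeg]
    have := h.su.hn
    omega
  · exact ((hP n k f b g ψ ra R ε δ A G k h).1 q hq.le).mono (PH1_ball h1.le)
  · exact mem_ball_self (Real.exp_pos _)
  · rw [h.sys.val q hq.le, h.su.cyc.step]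
    congr 1
    push_cast
    ring

theorem PH1_crit_ne (h : H1 n k f b g ψ ra R ε δ A G k) (hA : A 0 = 2 * δ) {q p : ℕ} (hlt : q < p)
    (hp : p < k) {a a' : ℝ} (ha : a ∈ PH1_J k f b (ψ 0) δ A G q)
    (ha' : a' ∈ PH1_J k f b (ψ 0) δ A G p) {u v : ℂ} (hu : u ∈ ball (0 : ℂ) (Real.exp (-a)))
    (hv : v ∈ ball (0 : ℂ) (Real.exp (-a'))) : G q u ≠ G p v := by
  intro huv
  obtain ⟨hq1, hq2, hq3, -⟩ := ha
  obtain ⟨hp1, hp2, hp3, -⟩ := ha'
  have hd0 := h.d0
  have e1 : (fun z : ℂ => f.eval z)^[q] (G (q + 0) u) = G 0 u :=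
    PH1_iter h q 0 (by omega) u (PH1_ball (by simpa using hq1.le) hu)
  have e2 : (fun z : ℂ => f.eval z)^[q] (G (q + (p - q)) v) = G (p - q) v := by
    apply PH1_iter h q (p - q) (by omega) v
    have : q + (p - q) = p := by omega
    rw [this]
    exact PH1_ball hp1.le hv
  rw [show q + (p - q) = p by omega] at e2
  rw [add_zero] at e1
  rw [huv, e2, h.sys.g0] at e1
  have hAq : 2 * δ ≤ A q := by
    rw [← hA]
    exact PH1_mono h (by omega) (by omega)
  have hu3 : u ∈ ball (0 : ℂ) (Real.exp (-δ)) := PH1_ball (by linarith) hu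
  rcases Nat.eq_zero_or_pos q with h0 | h0
  · subst h0
    have h5 := hp3 (by omega)
    rw [Nat.sub_zero] at e1
    exact Set.disjoint_left.1 h5 ⟨v, hv, rfl⟩ ⟨u, hu3, e1.symm⟩
  · have h5 := h.sys.disj (p - q) (by omega) (by omega)
    have h6 : v ∈ ball (0 : ℂ) (Real.exp (-A (p - q + 1))) := by
      apply PH1_ball _ hv
      have := PH1_mono h (show p - q + 1 ≤ p by omega) (by omega)
      linarith
    exact Set.disjoint_left.1 h5 ⟨v, h6, rfl⟩ ⟨u, hu3, e1.symm⟩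

/-- at most `n - 1` levels are bad. -/
theorem PH1_card (hL : LIFT_stmt) (hP : P1A_stmt) (hPR : PRB_stmt)
    (h : H1 n k f b g ψ ra R ε δ A G k) (hA : A 0 = 2 * δ) (F : Finset ℕ)
    (hF : ∀ q ∈ F, q < k ∧ (PH1_J k f b (ψ 0) δ A G q).Nonempty) : F.card ≤ n - 1 := by
  classical
  have hn := h.su.hn
  obtain ⟨-, -, -, -, hfin, hcard⟩ := hPR f (by rw [h.su.hdeg]; omega)
  rw [h.su.hdeg] at hcard
  have hex : ∀ q : ℕ, ∃ a : ℝ, ∃ u : ℂ, q ∈ F → a ∈ PH1_J k f b (ψ 0) δ A G q ∧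
      u ∈ ball (0 : ℂ) (Real.exp (-a)) ∧ G q u ∈ CV f := by
    intro q
    by_cases hq : q ∈ F
    · obtain ⟨h1, a, ha⟩ := hF q hq
      obtain ⟨u, hu, hu2⟩ := PH1_crit hL hP h h1 ha
      exact ⟨a, u, fun _ => ⟨ha, hu, hu2⟩⟩
    · exact ⟨0, 0, fun h => absurd h hq⟩
  choose a u hau using hex
  have h1 : (F.image fun q => G q (u q)).card = F.card := by
    apply Finset.card_image_of_injOn
    intro q hq p hp hqp
    simp only at hqp
    obtain ⟨h1, h2, -⟩ := hau q hq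
    obtain ⟨h3, h4, -⟩ := hau p hp
    rcases lt_trichotomy q p with hlt | heq | hlt
    · exact absurd hqp (PH1_crit_ne h hA hlt (hF p hp).1 h1 h3 h2 h4)
    · exact heq
    · exact absurd hqp.symm (PH1_crit_ne h hA hlt (hF q hq).1 h3 h1 h4 h2)
  rw [← h1, ← Set.ncard_coe_finset]
  refine (Set.ncard_le_ncard ?_ hfin).trans hcard
  intro x hx
  rw [Finset.mem_coe, Finset.mem_image] at hx
  obtain ⟨q, hq, rfl⟩ := hx
  exact (hau q hq).2.2

theorem PH1_volJ (hEV : EV1_stmt) (h : H1 n k f b g ψ ra R ε δ A G k) (hε : ε ≤ δ ^ 2 / cn n)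
    (hfail : ∀ q < k, ∀ a, A q < a → a < A (q + 1) → Fail1 f b (ψ 0) δ G q a) {q : ℕ}
    (hq : q < k) : volume (PH1_J k f b (ψ 0) δ A G q) ≤ ENNReal.ofReal (δ / (4 * n)) := by
  have hsub : PH1_J k f b (ψ 0) δ A G q ⊆ Ioo (A (q + 1) - δ / (4 * n)) (A (q + 1)) := by
    intro a ha
    obtain ⟨h1, h2, h3, h4⟩ := ha
    refine ⟨?_, h2⟩
    have h5 := hEV n k f b g ψ ra R ε δ A G q (PH1_restr h (by omega)) hε a h1.le h3 ?_
    · linarith
    · intro a' haa' ha'
      rcases hfail q hq a' (by linarith) ha' with h6 | h6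
      · exfalso
        refine h6.2 ((h3 h6.1).mono_left (image_mono (PH1_ball haa')))
      · exact h6
  refine (measure_mono hsub).trans ?_
  rw [Real.volume_Ioo]
  apply ENNReal.ofReal_le_ofReal
  linarith

theorem PH1_volT (hEV : EV1_stmt) (hL : LIFT_stmt) (hP : P1A_stmt) (hPR : PRB_stmt)
    (h : H1 n k f b g ψ ra R ε δ A G k) (hA : A 0 = 2 * δ) (hε : ε ≤ δ ^ 2 / cn n)
    (hfail : ∀ q < k, ∀ a, A q < a → a < A (q + 1) → Fail1 f b (ψ 0) δ G q a) :
    volume (⋃ q ∈ Finset.range k, PH1_J k f b (ψ 0) δ A G q) ≤ ENNReal.ofReal (δ / 4) := by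
  classical
  have hd0 := h.d0
  have hn := h.su.hn
  set F : Finset ℕ := (Finset.range k).filter fun q => (PH1_J k f b (ψ 0) δ A G q).Nonempty
    with hFdef
  have hsub : (⋃ q ∈ Finset.range k, PH1_J k f b (ψ 0) δ A G q) ⊆
      ⋃ q ∈ F, PH1_J k f b (ψ 0) δ A G q := by
    intro a ha
    simp only [mem_iUnion] at ha ⊢
    obtain ⟨q, hq, ha⟩ := ha
    exact ⟨q, Finset.mem_filter.2 ⟨hq, a, ha⟩, ha⟩
  have hcard : F.card ≤ n - 1 := by
    apply PH1_card hL hP hPR h hA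
    intro q hq
    rw [hFdef, Finset.mem_filter, Finset.mem_range] at hq
    exact hq
  have hn0 : (0 : ℝ) < n := by
    have : 0 < n := by omega
    exact_mod_cast this
  calc volume (⋃ q ∈ Finset.range k, PH1_J k f b (ψ 0) δ A G q)
      ≤ volume (⋃ q ∈ F, PH1_J k f b (ψ 0) δ A G q) := measure_mono hsub
    _ ≤ ∑ q ∈ F, volume (PH1_J k f b (ψ 0) δ A G q) := measure_biUnion_finset_le _ _
    _ ≤ ∑ _q ∈ F, ENNReal.ofReal (δ / (4 * n)) := by
        apply Finset.sum_le_sum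
        intro q hq
        rw [hFdef, Finset.mem_filter, Finset.mem_range] at hq
        exact PH1_volJ hEV h hε hfail hq.1
    _ = ENNReal.ofReal (F.card * (δ / (4 * n))) := by
        rw [Finset.sum_const, nsmul_eq_mul, ENNReal.ofReal_mul (Nat.cast_nonneg _),
          ENNReal.ofReal_natCast]
    _ ≤ ENNReal.ofReal (δ / 4) := by
        apply ENNReal.ofReal_le_ofReal
        have h1 : (F.card : ℝ) ≤ n := by
          have : F.card ≤ n := hcard.trans (Nat.sub_le _ _)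
          exact_mod_cast this
        calc (F.card : ℝ) * (δ / (4 * n)) ≤ n * (δ / (4 * n)) :=
              mul_le_mul_of_nonneg_right h1 (by positivity)
          _ = δ / 4 := by field_simp

theorem PH1_eps (h : SU n k f b g ψ ra R ε) : 0 ≤ ε := by
  have h1 := h.hE
  have h2 : 0 < Real.log ‖rho f b‖ := Real.log_pos h.rho1
  have h3 : 0 ≤ ∫ z in ball (0 : ℂ) R, ‖er f b g z‖ :=
    integral_nonneg fun z => norm_nonneg _
  have h4 := Real.pi_pos
  have h5 : 0 < 2 * Real.pi * Real.log ‖rho f b‖ := by positivity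
  linarith

theorem PH1_cn (hn : 2 ≤ n) : (10 : ℝ) ^ 16 ≤ cn n := by
  have h1 : (4 : ℝ) ^ 40 ≤ 4 ^ (40 + 2 * n) :=
    pow_le_pow_right₀ (by norm_num) (by omega)
  have h2 : (1 : ℝ) ≤ (n : ℝ) ^ 2 := by
    have : (1 : ℝ) ≤ n := by exact_mod_cast (by omega : 1 ≤ n)
    exact one_le_pow₀ this
  have h3 : (10 : ℝ) ^ 16 ≤ 4 ^ 40 := by norm_num
  calc (10 : ℝ) ^ 16 ≤ 4 ^ (40 + 2 * n) := h3.trans h1
    _ = 4 ^ (40 + 2 * n) * 1 := (mul_one _).symm
    _ ≤ cn n := mul_le_mul_of_nonneg_left h2 (by positivity)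

end

theorem PH1 (hSEQ : SEQ1_stmt) (hMU : MU1_stmt) (hRE : REACH1_stmt) (hCH : CHEB_stmt)
    (hEV : EV1_stmt) (hP : P1A_stmt) (hL : LIFT_stmt) (hPR : PRB_stmt) : PH1_stmt := by
  intro n k _ f b g ψ ra R ε δ hSU hδ hδ1 hmp hε
  obtain ⟨A, G, hH, hA0, hfail⟩ := hSEQ n k f b g ψ ra R ε δ hSU hδ hδ1 hmp
  obtain ⟨μ, hμ1, hμ2⟩ := hMU n k f b g ψ ra R ε δ A G k hH
  have hε0 := PH1_eps hSU
  have hcn := PH1_cn hSU.hn
  have hcn0 : 0 < cn n := lt_of_lt_of_le (by norm_num) hcn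
  have hδ32 : δ ^ 3 ≤ δ ^ 2 := by nlinarith [sq_nonneg δ]
  have hεc : ε ≤ δ ^ 2 / cn n :=
    hε.trans (div_le_div_of_nonneg_right hδ32 hcn0.le)
  have hε3' : ε ≤ δ ^ 3 / 10 ^ 16 := by
    refine hε.trans ?_
    exact div_le_div_of_nonneg_left (by positivity) (by norm_num) hcn
  have hε3 : ε ≤ δ ^ 2 / 1024 := by
    refine hεc.trans ?_
    refine div_le_div_of_nonneg_left (by positivity) (by norm_num) (le_trans (by norm_num) hcn)
  have hcheb := hCH μ 1 (3 * ε) (3 * δ / 4) one_pos (by linarith) (by linarith) hμ1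
  have hcb : 16 * 1 * (3 * ε) / (Real.pi * (3 * δ / 4) ^ 2) ≤ δ / 4 := by
    have hpi : 3 < Real.pi := Real.pi_gt_three
    rw [div_le_iff₀ (by positivity)]
    have h1 : 48 * ε ≤ 48 * (δ ^ 3 / 10 ^ 16) := by linarith
    have h2 : δ / 4 * (3 * (3 * δ / 4) ^ 2) ≤ δ / 4 * (Real.pi * (3 * δ / 4) ^ 2) := by
      gcongr
    have h3 : 48 * (δ ^ 3 / 10 ^ 16) ≤ δ / 4 * (3 * (3 * δ / 4) ^ 2) := by
      have : 0 < δ ^ 3 := by positivity
      nlinarith
    linarith
  have hAk : A k ≤ 3 * δ := by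
    by_contra hlt
    push Not at hlt
    have hsub : Ioo (2 * δ) (A k) ⊆
        ({s : ℝ | ENNReal.ofReal (3 * δ / 4) ≤ PsiM μ 1 s} ∪
          ⋃ q ∈ Finset.range k, PH1_J k f b (ψ 0) δ A G q) ∪
          (A '' (Finset.range (k + 1) : Set ℕ)) := by
      intro a ha
      rw [← hA0] at ha
      rcases PH1_level ha.1 ha.2 with ⟨q, hq, h1⟩ | ⟨q, hq, h1, h2⟩
      · right
        refine ⟨q, ?_, h1.symm⟩
        simp only [Finset.coe_range, mem_Iio]
        omega
      · left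
        by_cases hdis : 1 ≤ q ∧ ¬ Disjoint (G q '' ball 0 (Real.exp (-a)))
            (ψ 0 '' ball 0 (Real.exp (-δ)))
        · left
          exact hRE n k f b g ψ ra R ε δ A G k μ hH hε3 hμ2 q a hdis.1 hq hq.le h1.le hdis.2
        · right
          simp only [mem_iUnion]
          refine ⟨q, Finset.mem_range.2 hq, h1, h2, ?_, ?_⟩
          · intro h3
            by_contra h4
            exact hdis ⟨h3, h4⟩
          · rcases hfail q hq a h1 h2 with h3 | h3
            · exact absurd h3 hdis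
            · exact h3
    have hfin : volume (A '' (Finset.range (k + 1) : Set ℕ)) = 0 :=
      ((Finset.finite_toSet _).image A).measure_zero _
    have h1 : volume (Ioo (2 * δ) (A k)) ≤ ENNReal.ofReal (δ / 4) + ENNReal.ofReal (δ / 4) := by
      refine (measure_mono hsub).trans ?_
      refine (measure_union_le _ _).trans ?_
      rw [hfin, add_zero]
      refine (measure_union_le _ _).trans ?_
      refine add_le_add (hcheb.trans (ENNReal.ofReal_le_ofReal hcb)) ?_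
      exact PH1_volT hEV hL hP hPR hH hA0 hεc hfail
    rw [Real.volume_Ioo, ← ENNReal.ofReal_add (by linarith) (by linarith),
      ENNReal.ofReal_le_ofReal_iff (by linarith)] at h1
    linarith
  refine ⟨G, ?_⟩
  have hle : ∀ q ≤ k, A q ≤ 3 * δ := fun q hq => (PH1_mono hH hq le_rfl).trans hAk
  exact
    { a0 := by linarith
      mono := fun _ _ => le_rfl
      g0 := hH.sys.g0
      diff := fun q h1 h2 => (hH.sys.diff q h1 h2).mono (PH1_ball (hle q h2))
      rel := fun q h1 u hu => hH.sys.rel q h1 u (PH1_ball (hle (q + 1) (by omega)) hu)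
      val := hH.sys.val
      disj := fun q h1 h2 => (hH.sys.disj q h1 h2).mono_left
        (image_mono (PH1_ball (hle (q + 1) (by omega)))) }

end PPS
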