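import Pool.Agent.helper36.PP.SpecM

/-! PU of project pp: the series of pull backs. -/

set_option autoImplicit false

open Complex Metric Set Filter Topology MeasureTheory MPS MQ Pool.Agent.helper98.ILF

noncomputable section

namespace PPS

/-- the terms of the series. -/
def PU_t (f : Polynomial ℂ) (β : ℂ → ℂ) (m : ℕ) (z : ℂ) : ℂ :=
  β (it f (m + 1) z) * (starRingEnd ℂ) (deriv (it f (m + 1)) z) / deriv (it f (m + 1)) z

theorem PU_it_succ (f : Polynomial ℂ) (m : ℕ) (z : ℂ) : it f (m + 1) z = it f m (f.eval z) := by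
  unfold it
  rw [Function.iterate_succ_apply]

theorem PU_it_add (f : Polynomial ℂ) (m n : ℕ) (z : ℂ) : it f (m + n) z = it f m (it f n z) := by
  unfold it
  rw [Function.iterate_add_apply]

theorem PU_diff (f : Polynomial ℂ) (m : ℕ) : Differentiable ℂ (it f m) := by
  unfold it
  exact Differentiable.iterate f.differentiable m

theorem PU_deriv (f : Polynomial ℂ) (m : ℕ) (z : ℂ) :
    deriv (it f (m + 1)) z = deriv (it f m) (f.eval z) * fd f z := by
  have h : it f (m + 1) = it f m ∘ (fun w => f.eval w) := by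
    funext w
    exact PU_it_succ f m w
  rw [h, deriv_comp z ((PU_diff f m) _) (f.differentiable z)]
  congr 1
  rw [Polynomial.deriv]
  rfl

theorem PU_term_succ (f : Polynomial ℂ) (β : ℂ → ℂ) (m : ℕ) (z : ℂ) (hz : fd f z ≠ 0) :
    PU_t f β (m + 1) z = PU_t f β m (f.eval z) * (starRingEnd ℂ) (fd f z) / fd f z := by
  unfold PU_t
  rw [PU_it_succ f (m + 1) z, PU_deriv f (m + 1) z, map_mul]
  by_cases hD : deriv (it f (m + 1)) (f.eval z) = 0
  · simp [hD]
  · field_simp

theorem PU_term_zero (f : Polynomial ℂ) (β : ℂ → ℂ) (z : ℂ) :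
    PU_t f β 0 z = β (f.eval z) * (starRingEnd ℂ) (fd f z) / fd f z := by
  unfold PU_t
  have h0 : it f 0 = id := by
    funext w
    simp [it]
  rw [PU_it_succ f 0 z, PU_deriv f 0 z, h0]
  simp

theorem PU_term_le (f : Polynomial ℂ) (β : ℂ → ℂ) (C : ℝ) (hC : ∀ z, ‖β z‖ ≤ C) (m : ℕ) (z : ℂ) :
    ‖PU_t f β m z‖ ≤ C := by
  unfold PU_t
  have hC0 : 0 ≤ C := le_trans (norm_nonneg _) (hC 0)
  by_cases hD : deriv (it f (m + 1)) z = 0
  · simp [hD, hC0]
  · rw [norm_div, norm_mul, RCLike.norm_conj, mul_div_assoc, div_self (by simpa using hD), mul_one]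
    exact hC _

theorem PU_term_meas (f : Polynomial ℂ) (β : ℂ → ℂ) (hβ : Measurable β) (m : ℕ) :
    Measurable (PU_t f β m) := by
  have h1 : Measurable (it f (m + 1)) := (PU_diff f (m + 1)).continuous.measurable
  have h2 : Measurable (deriv (it f (m + 1))) := measurable_deriv _
  have h3 : Measurable (fun z => (starRingEnd ℂ) (deriv (it f (m + 1)) z)) :=
    Complex.continuous_conj.measurable.comp h2
  exact ((hβ.comp h1).mul h3).div h2

theorem PU_supp (f : Polynomial ℂ) (β : ℂ → ℂ) (W : Set ℂ) (M : ℕ)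
    (hs : ∀ z, β z ≠ 0 → z ∈ W) (hw : ∀ z ∈ W, ∀ m, M ≤ m → it f m z ∉ W) (z : ℂ) :
    ∃ m0 : ℕ, ∀ m, m ∉ Finset.Ico m0 (m0 + M) → PU_t f β m z = 0 := by
  classical
  by_cases hex : ∃ m, it f (m + 1) z ∈ W
  · refine ⟨Nat.find hex, fun m hm => ?_⟩
    by_contra hne
    have hβ : β (it f (m + 1) z) ≠ 0 := by
      intro h
      apply hne
      unfold PU_t
      rw [h]
      simp
    have hW := hs _ hβ
    have h1 : Nat.find hex ≤ m := Nat.find_min' hex hW
    have h2 : Nat.find hex + M ≤ m := by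
      by_contra hlt
      apply hm
      rw [Finset.mem_Ico]
      omega
    have h3 := hw _ (Nat.find_spec hex) (m - Nat.find hex) (by omega)
    rw [← PU_it_add] at h3
    have h4 : m - Nat.find hex + (Nat.find hex + 1) = m + 1 := by omega
    rw [h4] at h3
    exact h3 hW
  · refine ⟨0, fun m _ => ?_⟩
    by_contra hne
    have hβ : β (it f (m + 1) z) ≠ 0 := by
      intro h
      apply hne
      unfold PU_t
      rw [h]
      simp
    exact hex ⟨m, hs _ hβ⟩

theorem PU : PU_stmt := by
  intro f β W M C hf hβ hC hs hw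
  have hpull : ∀ z, pull f β z = ∑' m, PU_t f β m z := fun z => rfl
  have hsum : ∀ z, Summable (fun m => PU_t f β m z) := by
    intro z
    obtain ⟨m0, h0⟩ := PU_supp f β W M hs hw z
    exact summable_of_ne_finset_zero h0
  have hC0 : 0 ≤ C := le_trans (norm_nonneg _) (hC 0)
  refine ⟨?_, ?_, ?_, ?_⟩
  · refine measurable_of_tendsto_metrizable (f := fun (n : ℕ) (z : ℂ) => ∑ m ∈ Finset.range n, PU_t f β m z) ?_ ?_
    · intro n
      exact Finset.measurable_fun_sum _ (fun m _ => PU_term_meas f β hβ m)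
    · rw [tendsto_pi_nhds]
      intro z
      exact (hsum z).hasSum.tendsto_sum_nat
  · intro z
    obtain ⟨m0, h0⟩ := PU_supp f β W M hs hw z
    rw [hpull, tsum_eq_sum (s := Finset.Ico m0 (m0 + M)) h0]
    refine le_trans (norm_sum_le _ _) ?_
    refine le_trans (Finset.sum_le_sum (fun m _ => PU_term_le f β C hC m z)) ?_
    simp
  · intro z hz
    rw [hpull z, hpull (f.eval z), (hsum z).tsum_eq_zero_add, PU_term_zero]
    have h1 : (∑' m, PU_t f β (m + 1) z) = (∑' m, PU_t f β m (f.eval z)) * ((starRingEnd ℂ) (fd f z) / fd f z) := by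
      rw [← tsum_mul_right]
      refine tsum_congr (fun m => ?_)
      rw [PU_term_succ f β m z hz]
      ring
    rw [h1]
    ring
  · intro z hz
    by_contra hcon
    push Not at hcon
    apply hz
    rw [hpull]
    have h0 : ∀ m, PU_t f β m z = 0 := by
      intro m
      have h1 : β (it f (m + 1) z) = 0 := by
        by_contra hb
        exact hcon (m + 1) (by omega) (hs _ hb)
      unfold PU_t
      rw [h1]
      simp
    simp [h0]

end PPS
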